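import Pool.Agent.V11108.Sq
import Pool.Agent.V11108.Dendrite

/-!
# MP_5bdc9f: a continuous self-map of a dendrite with a DC3 pair but no Li-Yorke pair.
-/

namespace Pool.Agent.Results.MP_5bdc9f_an.DC3NoLY

open Set Topology Filter Pool.Agent.V11108.Sq Pool.Agent.V11108.Dendrite

section Defs

variable {X : Type*} [MetricSpace X]

open Classical in
/-- `#{0 ≤ k ≤ n : d(f^k x, f^k y) < δ}` -/
noncomputable def cnt (f : X → X) (x y : X) (δ : ℝ) (n : ℕ) : ℕ :=
  ((Finset.range (n + 1)).filter fun k => dist (f^[k] x) (f^[k] y) < δ).card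

/-- the lower distribution function `Φ_{xy}(δ)` -/
noncomputable def Phi (f : X → X) (x y : X) (δ : ℝ) : ℝ :=
  liminf (fun n : ℕ => (cnt f x y δ n : ℝ) / n) atTop

/-- the upper distribution function `Φ*_{xy}(δ)` -/
noncomputable def PhiStar (f : X → X) (x y : X) (δ : ℝ) : ℝ :=
  limsup (fun n : ℕ => (cnt f x y δ n : ℝ) / n) atTop

/-- DC3 pairs -/
def IsDC3Pair (f : X → X) (x y : X) : Prop :=
  x ≠ y ∧ ∃ a b : ℝ, 0 ≤ a ∧ a < b ∧ b ≤ Metric.diam (univ : Set X) ∧
    ∀ δ : ℝ, a < δ → δ < b → Phi f x y δ < PhiStar f x y δ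

/-- Li-Yorke pairs -/
def IsLYPair (f : X → X) (x y : X) : Prop :=
  x ≠ y ∧ liminf (fun k : ℕ => dist (f^[k] x) (f^[k] y)) atTop = 0 ∧
    0 < limsup (fun k : ℕ => dist (f^[k] x) (f^[k] y)) atTop

lemma cnt_le (f : X → X) (x y : X) (δ : ℝ) (n : ℕ) : cnt f x y δ n ≤ n + 1 := by
  classical
  refine (Finset.card_filter_le _ _).trans ?_
  simp

lemma ratio_nonneg (f : X → X) (x y : X) (δ : ℝ) (n : ℕ) : 0 ≤ (cnt f x y δ n : ℝ) / n := by
  positivity

lemma ratio_le (f : X → X) (x y : X) (δ : ℝ) (n : ℕ) : (cnt f x y δ n : ℝ) / n ≤ 2 := by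
  rcases Nat.eq_zero_or_pos n with rfl | hn
  · simp
  · have h1 : (cnt f x y δ n : ℝ) ≤ n + 1 := by exact_mod_cast cnt_le f x y δ n
    have h2 : (1 : ℝ) ≤ n := by exact_mod_cast hn
    rw [div_le_iff₀ (by linarith)]
    linarith

lemma bdd_above (f : X → X) (x y : X) (δ : ℝ) :
    IsBoundedUnder (· ≤ ·) atTop (fun n : ℕ => (cnt f x y δ n : ℝ) / n) :=
  isBoundedUnder_of ⟨2, ratio_le f x y δ⟩

lemma bdd_below (f : X → X) (x y : X) (δ : ℝ) :
    IsBoundedUnder (· ≥ ·) atTop (fun n : ℕ => (cnt f x y δ n : ℝ) / n) :=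
  isBoundedUnder_of ⟨0, ratio_nonneg f x y δ⟩

/-- not LY when the distances stay away from zero -/
lemma not_ly_far [CompactSpace X] (f : X → X) (x y : X) {c : ℝ} (hc : 0 < c) (N : ℕ)
    (h : ∀ k ≥ N, c ≤ dist (f^[k] x) (f^[k] y)) : ¬ IsLYPair f x y := by
  rintro ⟨_, h1, _⟩
  have h2 : c ≤ liminf (fun k : ℕ => dist (f^[k] x) (f^[k] y)) atTop := by
    refine le_liminf_of_le ?_ (eventually_atTop.2 ⟨N, h⟩)
    have : IsBoundedUnder (· ≤ ·) atTop (fun k : ℕ => dist (f^[k] x) (f^[k] y)) :=
      isBoundedUnder_of ⟨Metric.diam (univ : Set X), fun k =>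
        Metric.dist_le_diam_of_mem isCompact_univ.isBounded trivial trivial⟩
    exact this.isCoboundedUnder_ge
  linarith

/-- not LY when the distances tend to zero -/
lemma not_ly_asym (f : X → X) (x y : X)
    (h : Tendsto (fun k : ℕ => dist (f^[k] x) (f^[k] y)) atTop (𝓝 0)) : ¬ IsLYPair f x y := by
  rintro ⟨_, _, h1⟩
  rw [h.limsup_eq] at h1
  exact lt_irrefl _ h1

lemma ly_symm {f : X → X} {x y : X} (h : IsLYPair f x y) : IsLYPair f y x := by
  obtain ⟨h1, h2, h3⟩ := h
  have e : (fun k : ℕ => dist (f^[k] y) (f^[k] x)) = fun k : ℕ => dist (f^[k] x) (f^[k] y) := by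
    funext k; rw [dist_comm]
  exact ⟨h1.symm, by rw [e]; exact h2, by rw [e]; exact h3⟩

end Defs

/-! ### The Morse-type cocycle -/

/-- the radices -/
def kk (m : ℕ) : ℕ := 2 ^ (m + 4)

/-- block lengths -/
def K : ℕ → ℕ
  | 0 => 1
  | m + 1 => K m * kk m

lemma kk_ge (m : ℕ) : 16 ≤ kk m := by
  unfold kk
  have : 2 ^ 4 ≤ 2 ^ (m + 4) := Nat.pow_le_pow_right (by norm_num) (by omega)
  simpa using this

lemma K_succ (m : ℕ) : K (m + 1) = K m * kk m := rfl

lemma K_pos (m : ℕ) : 0 < K m := by
  induction m with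
  | zero => exact one_pos
  | succ m ih => exact Nat.mul_pos ih (by have := kk_ge m; omega)

lemma K_step (m : ℕ) : 16 * K m ≤ K (m + 1) := by
  rw [K_succ, mul_comm]
  exact Nat.mul_le_mul_left _ (kk_ge m)

lemma K_gt (m : ℕ) : m < K m := by
  induction m with
  | zero => exact one_pos
  | succ m ih => have := K_step m; omega

lemma K_dvd {m m' : ℕ} (h : m ≤ m') : K m ∣ K m' := by
  induction m', h using Nat.le_induction with
  | base => exact dvd_refl _
  | succ n _ ih => exact ih.trans (Dvd.intro _ rfl)

/-- parity of the number of maximal digits among the first `m` digits -/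
def g : ℕ → ℕ → Bool
  | 0, _ => false
  | m + 1, i => xor (g m i) (decide ((i / K m) % kk m = kk m - 1))

lemma g_succ (m i : ℕ) : g (m + 1) i = xor (g m i) (decide ((i / K m) % kk m = kk m - 1)) := rfl

/-- `g m` has period `K m` -/
lemma g_per (m i c : ℕ) : g m (i + K m * c) = g m i := by
  induction m generalizing c with
  | zero => rfl
  | succ m ih =>
    rw [g_succ, g_succ]
    have e : i + K (m + 1) * c = i + K m * (kk m * c) := by rw [K_succ]; ring
    rw [e, ih, Nat.add_mul_div_left _ _ (K_pos m)]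
    congr 2
    rw [Nat.add_mul_mod_self_left]

lemma g_small {m i : ℕ} (h : i < K m) (j : ℕ) : g (m + j) i = g m i := by
  induction j with
  | zero => rfl
  | succ j ih =>
    rw [← Nat.add_assoc, g_succ, ih]
    have h1 : K m ≤ K (m + j) := Nat.le_of_dvd (K_pos _) (K_dvd (Nat.le_add_right _ _))
    rw [Nat.div_eq_of_lt (lt_of_lt_of_le h h1), Nat.zero_mod]
    have : ¬ (0 = kk (m + j) - 1) := by have := kk_ge (m + j); omega
    simp [this]

/-- `y` is a concatenation of blocks `±B_m` with phase `T` -/
def P (m : ℕ) (y : ℕ → Bool) (T : ℕ) : Prop :=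
  ∀ n n' : ℕ, (n + T) / K m = (n' + T) / K m →
    xor (y n) (g m (n + T)) = xor (y n') (g m (n' + T))

lemma P_add {m T : ℕ} {y : ℕ → Bool} (c : ℕ) : P m y (T + K m * c) ↔ P m y T := by
  unfold P
  refine forall₂_congr fun n n' => ?_
  rw [← Nat.add_assoc, ← Nat.add_assoc, g_per, g_per, Nat.add_mul_div_left _ _ (K_pos m),
    Nat.add_mul_div_left _ _ (K_pos m), Nat.add_right_cancel_iff]

lemma P_mod {m T : ℕ} {y : ℕ → Bool} : P m y (T % K m) ↔ P m y T := by
  have h := P_add (m := m) (T := T % K m) (y := y) (T / K m)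
  rw [Nat.mod_add_div] at h
  exact h.symm

lemma P_down {m T : ℕ} {y : ℕ → Bool} (h : P (m + 1) y T) : P m y T := by
  intro n n' hnn
  have h1 : (n + T) / K (m + 1) = (n' + T) / K (m + 1) := by
    rw [K_succ, ← Nat.div_div_eq_div_mul, ← Nat.div_div_eq_div_mul, hnn]
  have h2 := h n n' h1
  rw [g_succ, g_succ, hnn] at h2
  revert h2
  cases y n <;> cases y n' <;> cases g m (n + T) <;> cases g m (n' + T) <;>
    cases decide ((n' + T) / K m % kk m = kk m - 1) <;> simp

lemma exists_window (a T M ρ : ℕ) (hρ : ρ < M) : ∃ n, a ≤ n ∧ n < a + M ∧ (n + T) % M = ρ := by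
  refine ⟨a + (ρ + (M - (a + T) % M)) % M, by omega, ?_, ?_⟩
  · have := Nat.mod_lt (ρ + (M - (a + T) % M)) (by omega : 0 < M); omega
  · have h1 : (a + T) % M < M := Nat.mod_lt _ (by omega)
    have h2 : a + (ρ + (M - (a + T) % M)) % M + T ≡ (a + T) + (ρ + (M - (a + T) % M)) [MOD M] := by
      have : a + (ρ + (M - (a + T) % M)) % M + T = (a + T) + (ρ + (M - (a + T) % M)) % M := by ring
      rw [this]
      exact (Nat.ModEq.refl _).add (Nat.mod_modEq _ _)
    have h3 : (a + T) + (ρ + (M - (a + T) % M)) ≡ ρ [MOD M] := by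
      have h4 : (a + T) ≡ (a + T) % M [MOD M] := (Nat.mod_modEq _ _).symm
      have h5 := h4.add_right (ρ + (M - (a + T) % M))
      have h6 : (a + T) % M + (ρ + (M - (a + T) % M)) = ρ + M := by omega
      rw [h6] at h5
      refine h5.trans ?_
      show (ρ + M) % M = ρ % M
      simp
    have h7 : (a + (ρ + (M - (a + T) % M)) % M + T) % M = ρ % M := h2.trans h3
    rw [h7, Nat.mod_eq_of_lt hρ]

/-- digit from residue -/
lemma digit_of {m x d : ℕ} (h : x % K (m + 1) = d * K m) : (x / K m) % kk m = d := by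
  rw [K_succ] at h
  rw [← Nat.mod_mul_right_div_self, h, Nat.mul_div_cancel _ (K_pos m)]

/-- change of sign or not between consecutive blocks -/
lemma sign_step {m T : ℕ} {y : ℕ → Bool} (h : P (m + 1) y T) (n d : ℕ)
    (hd : ((n + T) / K m) % kk m = d) (hd2 : d + 1 < kk m) :
    xor (xor (y n) (g m (n + T))) (xor (y (n + K m)) (g m (n + T))) =
      decide (d + 1 = kk m - 1) := by
  have e1 : (n + K m + T) / K m = (n + T) / K m + 1 := by
    have : n + K m + T = n + T + K m * 1 := by ring
    rw [this, Nat.add_mul_div_left _ _ (K_pos m)]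
  have e2 : g m (n + K m + T) = g m (n + T) := by
    have : n + K m + T = n + T + K m * 1 := by ring
    rw [this, g_per]
  have e3 : ((n + T) / K m + 1) % kk m = d + 1 := by
    rw [Nat.add_mod, hd, Nat.mod_eq_of_lt (a := 1) (by omega), Nat.mod_eq_of_lt hd2]
  have e4 : (n + T) / K (m + 1) = (n + K m + T) / K (m + 1) := by
    rw [K_succ, ← Nat.div_div_eq_div_mul, ← Nat.div_div_eq_div_mul, e1]
    have h1 := Nat.div_add_mod ((n + T) / K m) (kk m)
    rw [hd] at h1
    have h2 := Nat.div_add_mod ((n + T) / K m + 1) (kk m)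
    rw [e3] at h2
    have h3 : kk m * ((n + T) / K m / kk m) = kk m * (((n + T) / K m + 1) / kk m) := by omega
    exact Nat.eq_of_mul_eq_mul_left (by omega) h3
  have h5 := h n (n + K m) e4
  rw [g_succ, g_succ, e1, e2, e3, hd] at h5
  have h6 : ¬ (d = kk m - 1) := by omega
  simp only [h6, decide_false, Bool.xor_false] at h5
  rw [h5]
  cases y (n + K m) <;> cases g m (n + T) <;> cases decide (d + 1 = kk m - 1) <;> rfl

/-- uniqueness of phases -/
lemma phase_unique : ∀ (m : ℕ) (y y' : ℕ → Bool) (T T' a : ℕ), P m y T → P m y' T' →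
    (∀ n, a ≤ n → n < a + 3 * K m → y n = y' n) → T ≡ T' [MOD K m] := by
  intro m
  induction m with
  | zero => intro y y' T T' a _ _ _; exact Nat.modEq_one
  | succ m ih =>
    -- reduce to `T ≤ T'`
    have main : ∀ (y y' : ℕ → Bool) (T T' a : ℕ), T ≤ T' → P (m + 1) y T → P (m + 1) y' T' →
        (∀ n, a ≤ n → n < a + 3 * K (m + 1) → y n = y' n) → T ≡ T' [MOD K (m + 1)] := by
      intro y y' T T' a hTT hy hy' hag
      have hstep := K_step m
      have h0 := ih y y' T T' a (P_down hy) (P_down hy') (fun n h1 h2 => hag n h1 (by omega))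
      obtain ⟨δ, hδ⟩ : ∃ δ, T' = T + K m * δ := by
        obtain ⟨δ, hδ⟩ := (Nat.modEq_iff_dvd' hTT).1 h0
        exact ⟨δ, by omega⟩
      have hk := kk_ge m
      have hq : ∀ n, (n + T') / K m = (n + T) / K m + δ := by
        intro n
        rw [hδ, ← Nat.add_assoc, Nat.add_mul_div_left _ _ (K_pos m)]
      have hg : ∀ n, g m (n + T') = g m (n + T) := by
        intro n
        rw [hδ, ← Nat.add_assoc, g_per]
      have hδk : δ % kk m = 0 := by
        by_contra hδ0
        have hδlt : δ % kk m < kk m := Nat.mod_lt _ (by omega)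
        -- first marker
        obtain ⟨n₁, ha1, hb1, hc1⟩ := exists_window a T (K (m + 1)) ((kk m - 2) * K m) (by
          rw [K_succ, mul_comm (K m)]
          exact Nat.mul_lt_mul_of_pos_right (by omega) (K_pos m))
        have hd1 := digit_of hc1
        have s1 := sign_step hy n₁ (kk m - 2) hd1 (by omega)
        have hlt1 : n₁ + K m < a + 3 * K (m + 1) := by omega
        rw [hag n₁ ha1 (by omega), hag (n₁ + K m) (by omega) hlt1] at s1
        have e1 : kk m - 2 + 1 = kk m - 1 := by omega
        rw [e1] at s1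
        simp only [decide_true] at s1
        have hδ1 : δ % kk m = 1 := by
          by_contra hne
          have hd2 : ((n₁ + T') / K m) % kk m = δ % kk m - 2 := by
            rw [hq, Nat.add_mod, hd1]
            have : kk m - 2 + δ % kk m = (δ % kk m - 2) + kk m * 1 := by omega
            rw [this, Nat.add_mul_mod_self_left, Nat.mod_eq_of_lt (by omega)]
          have s2 := sign_step hy' n₁ _ hd2 (by omega)
          rw [hg, s1] at s2
          have : ¬ (δ % kk m - 2 + 1 = kk m - 1) := by omega
          simp [this] at s2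
        -- second marker
        obtain ⟨n₂, ha2, hb2, hc2⟩ := exists_window a T' (K (m + 1)) ((kk m - 2) * K m) (by
          rw [K_succ, mul_comm (K m)]
          exact Nat.mul_lt_mul_of_pos_right (by omega) (K_pos m))
        have hd3 := digit_of hc2
        have s3 := sign_step hy' n₂ (kk m - 2) hd3 (by omega)
        rw [e1] at s3
        simp only [decide_true] at s3
        have hd4 : ((n₂ + T) / K m) % kk m = kk m - 3 := by
          have h7 := hd3
          rw [hq, Nat.add_mod, hδ1] at h7
          have h8 : ((n₂ + T) / K m) % kk m < kk m := Nat.mod_lt _ (by omega)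
          generalize ((n₂ + T) / K m) % kk m = w at h7 h8 ⊢
          rcases lt_or_ge (w + 1) (kk m) with h9 | h9
          · rw [Nat.mod_eq_of_lt h9] at h7; omega
          · have : w + 1 = kk m := by omega
            rw [this, Nat.mod_self] at h7; omega
        have s4 := sign_step hy n₂ _ hd4 (by omega)
        rw [hag n₂ ha2 (by omega), hag (n₂ + K m) (by omega) (by omega), ← hg, s3] at s4
        have : ¬ (kk m - 3 + 1 = kk m - 1) := by omega
        simp [this] at s4
      obtain ⟨c, hc⟩ := Nat.dvd_of_mod_eq_zero hδk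
      rw [hδ, hc, K_succ]
      show T % (K m * kk m) = (T + K m * (kk m * c)) % (K m * kk m)
      rw [← Nat.mul_assoc, Nat.add_mul_mod_self_left]
    intro y y' T T' a hy hy' hag
    rcases le_total T T' with h | h
    · exact main y y' T T' a h hy hy' hag
    · exact (main y' y T' T a h hy' hy fun n h1 h2 => (hag n h1 h2).symm).symm

/-! ### No Li-Yorke behaviour -/

/-- having phases on all levels -/
def Ph (y : ℕ → Bool) : Prop := ∀ m, ∃ T, P m y T

lemma trichotomy {y y' : ℕ → Bool} (hy : Ph y) (hy' : Ph y') :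
    (∃ L, ∀ a, ∃ n, a ≤ n ∧ n < a + L ∧ y n ≠ y' n) ∨
    (∃ N, ∀ n ≥ N, y n = y' n) ∨ (∃ N, ∀ n ≥ N, y n ≠ y' n) := by
  by_cases h : ∃ L, ∀ a, ∃ n, a ≤ n ∧ n < a + L ∧ y n ≠ y' n
  · exact Or.inl h
  · right
    push Not at h
    have hcom : ∀ m, ∃ T < K m, P m y T ∧ P m y' T := by
      intro m
      obtain ⟨T, hT⟩ := hy m
      obtain ⟨T', hT'⟩ := hy' m
      obtain ⟨a, ha⟩ := h (3 * K m)
      have h1 : T % K m = T' % K m := phase_unique m y y' T T' a hT hT' ha
      refine ⟨T % K m, Nat.mod_lt _ (K_pos m), P_mod.2 hT, ?_⟩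
      rw [h1]; exact P_mod.2 hT'
    choose T hT1 hT2 hT3 using hcom
    have he : ∀ m n n', (n + T m) / K m = (n' + T m) / K m →
        (y n = y' n ↔ y n' = y' n') := by
      intro m n n' hnn
      have h1 := hT2 m n n' hnn
      have h2 := hT3 m n n' hnn
      revert h1 h2
      cases y n <;> cases y n' <;> cases y' n <;> cases y' n' <;> cases g m (n + T m) <;>
        cases g m (n' + T m) <;> simp
    have hconst : ∃ N, ∀ n ≥ N, (y n = y' n ↔ y N = y' N) := by
      by_cases hB : ∃ n₀, ∀ m, K m ≤ n₀ + T m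
      · obtain ⟨n₀, hn₀⟩ := hB
        refine ⟨n₀, fun n hn => ?_⟩
        have hKn : n < K n := K_gt n
        refine he n n n₀ ?_
        have h1 := hT1 n
        have h2 := hn₀ n
        rw [Nat.div_eq_of_lt_le (k := 1) (by omega) (by omega),
          Nat.div_eq_of_lt_le (k := 1) (by omega) (by omega)]
      · push Not at hB
        refine ⟨0, fun n _ => ?_⟩
        obtain ⟨m, hm⟩ := hB n
        refine he m n 0 ?_
        rw [Nat.div_eq_of_lt hm, Nat.div_eq_of_lt (by omega)]
    obtain ⟨N, hN⟩ := hconst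
    by_cases hc : y N = y' N
    · exact Or.inl ⟨N, fun n hn => (hN n hn).2 hc⟩
    · exact Or.inr ⟨N, fun n hn h => hc ((hN n hn).1 h)⟩

lemma has_one {y : ℕ → Bool} (hy : Ph y) (a : ℕ) : ∃ n, a ≤ n ∧ n < a + 32 ∧ y n = true := by
  obtain ⟨T, hT⟩ := hy 1
  have hK1 : K 1 = 16 := rfl
  obtain ⟨n, h1, h2, h3⟩ := exists_window a T (K 1) 0 (K_pos 1)
  rw [hK1] at h2 h3
  by_contra hcon
  push Not at hcon
  have e1 := hcon n h1 (by omega)
  have e2 := hcon (n + 15) (by omega) (by omega)
  have h4 := hT n (n + 15) (by rw [hK1]; omega)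
  have g1 : g 1 (n + T) = false := by
    rw [show (1 : ℕ) = 0 + 1 from rfl, g_succ]
    have hK0 : K 0 = 1 := rfl
    have hk0 : kk 0 = 16 := rfl
    rw [hK0, hk0, Nat.div_one, h3]
    rfl
  have g2 : g 1 (n + 15 + T) = true := by
    rw [show (1 : ℕ) = 0 + 1 from rfl, g_succ]
    have hK0 : K 0 = 1 := rfl
    have hk0 : kk 0 = 16 := rfl
    have h5 : (n + 15 + T) % 16 = 15 := by omega
    rw [hK0, hk0, Nat.div_one, h5]
    rfl
  rw [g1, g2] at h4
  cases hyn : y n
  · cases hyn' : y (n + 15)
    · rw [hyn, hyn'] at h4; exact Bool.noConfusion h4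
    · exact e2 hyn'
  · exact e1 hyn

/-! ### The space -/

def zero : Sq Bool := fun _ => false

def S : Set (Sq Bool) := {y | Ph y} ∪ {zero}

lemma ph_iff (y : ℕ → Bool) : Ph y ↔ ∀ m, ∃ T ∈ Finset.range (K m), P m y T := by
  constructor
  · intro h m
    obtain ⟨T, hT⟩ := h m
    exact ⟨T % K m, Finset.mem_range.2 (Nat.mod_lt _ (K_pos m)), P_mod.2 hT⟩
  · intro h m
    obtain ⟨T, _, hT⟩ := h m
    exact ⟨T, hT⟩

lemma S_closed : IsClosed S := by
  refine IsClosed.union ?_ isClosed_singleton
  have : {y : Sq Bool | Ph y} = ⋂ m, ⋃ T ∈ Finset.range (K m), {y : Sq Bool | P m y T} := by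
    ext y
    simp only [mem_iInter, mem_iUnion, exists_prop]
    exact ph_iff y
  rw [this]
  refine isClosed_iInter fun m => (Finset.finite_toSet _).isClosed_biUnion fun T _ => ?_
  have : {y : Sq Bool | P m y T} = ⋂ n, ⋂ n', {y : Sq Bool | (n + T) / K m = (n' + T) / K m →
      xor (y n) (g m (n + T)) = xor (y n') (g m (n' + T))} := by
    ext y; simp only [mem_iInter]; rfl
  rw [this]
  refine isClosed_iInter fun n => isClosed_iInter fun n' => ?_
  by_cases hc : (n + T) / K m = (n' + T) / K m
  · have h1 : {y : Sq Bool | (n + T) / K m = (n' + T) / K m →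
        xor (y n) (g m (n + T)) = xor (y n') (g m (n' + T))} =
        {y : Sq Bool | xor (y n) (g m (n + T)) = xor (y n') (g m (n' + T))} := by
      ext y; simp [hc]
    rw [h1]
    have c1 : Continuous fun y : Sq Bool => xor (y n) (g m (n + T)) :=
      (continuous_of_discreteTopology (f := fun b : Bool => xor b (g m (n + T)))).comp
        (continuous_coord n)
    have c2 : Continuous fun y : Sq Bool => xor (y n') (g m (n' + T)) :=
      (continuous_of_discreteTopology (f := fun b : Bool => xor b (g m (n' + T)))).comp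
        (continuous_coord n')
    exact isClosed_eq c1 c2
  · have h1 : {y : Sq Bool | (n + T) / K m = (n' + T) / K m →
        xor (y n) (g m (n + T)) = xor (y n') (g m (n' + T))} = univ := by
      ext y; simp [hc]
    rw [h1]; exact isClosed_univ

lemma sh_mem {y : Sq Bool} (hy : y ∈ S) : sh y ∈ S := by
  rcases hy with hy | hy
  · left
    intro m
    obtain ⟨T, hT⟩ := hy m
    refine ⟨T + 1, fun n n' hnn => ?_⟩
    have e : ∀ n, n + (T + 1) = n + 1 + T := fun n => by ring
    rw [e, e] at hnn ⊢
    exact hT (n + 1) (n' + 1) hnn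
  · right
    rw [mem_singleton_iff] at hy ⊢
    rw [hy]; rfl

abbrev X := {z : Sq Bool // z ∈ S}

instance : CompactSpace X := isCompact_iff_compactSpace.1 S_closed.isCompact

def T (z : X) : X := ⟨sh z.1, sh_mem z.2⟩

lemma T_iter (k : ℕ) (z : X) : (T^[k] z).1 = sh^[k] z.1 := by
  induction k generalizing z with
  | zero => rfl
  | succ k ih => rw [Function.iterate_succ_apply, Function.iterate_succ_apply, ih]; rfl

/-! ### The irregular point -/

def r : ℕ → ℕ
  | 0 => 1
  | m + 1 => if m % 2 = 0 then r m + (kk m - 1) * K m else r m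

def sg : ℕ → Bool
  | 0 => false
  | m + 1 => if m % 2 = 0 then sg m else !(sg m)

lemma r_succ (m : ℕ) : r (m + 1) = if m % 2 = 0 then r m + (kk m - 1) * K m else r m := rfl
lemma sg_succ (m : ℕ) : sg (m + 1) = if m % 2 = 0 then sg m else !(sg m) := rfl

lemma K_split (m : ℕ) : K (m + 1) = (kk m - 1) * K m + K m := by
  rw [K_succ]
  have := kk_ge m
  obtain ⟨c, hc⟩ : ∃ c, kk m = c + 1 := ⟨kk m - 1, by omega⟩
  rw [hc, Nat.add_sub_cancel]; ring

lemma r_le (m : ℕ) : r m ≤ K m := by
  induction m with
  | zero => exact le_refl _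
  | succ m ih =>
    rw [r_succ, K_split]
    split_ifs <;> omega

lemma r_pos (m : ℕ) : 0 < r m := by
  induction m with
  | zero => exact one_pos
  | succ m ih => rw [r_succ]; split_ifs <;> omega

lemma r_mono : Monotone r := by
  refine monotone_nat_of_le_succ fun m => ?_
  rw [r_succ]; split_ifs <;> omega

lemma r_big (j : ℕ) : j < r (2 * j) := by
  induction j with
  | zero => exact one_pos
  | succ j ih =>
    have e : 2 * (j + 1) = 2 * j + 1 + 1 := by ring
    rw [e, r_succ, r_succ]
    have h1 : (2 * j) % 2 = 0 := by omega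
    have h2 : ¬ ((2 * j + 1) % 2 = 0) := by omega
    rw [if_neg h2, if_pos h1]
    have h3 : 1 ≤ (kk (2 * j) - 1) * K (2 * j) :=
      Nat.mul_pos (by have := kk_ge (2 * j); omega) (K_pos _)
    omega

/-- the value at `n` read from level `m` -/
def vl (m n : ℕ) : Bool := xor (sg m) (g m (K m - r m + n))

lemma vl_succ {m n : ℕ} (h : n < r m) : vl (m + 1) n = vl m n := by
  have hr := r_le m
  have hk := kk_ge m
  unfold vl
  rw [r_succ, sg_succ]
  split_ifs with hm
  · have e : K (m + 1) - (r m + (kk m - 1) * K m) + n = K m - r m + n := by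
      rw [K_split]; omega
    rw [e, g_small (by omega : K m - r m + n < K m) 1]
  · have e : K (m + 1) - r m + n = K m - r m + n + K m * (kk m - 1) := by
      rw [K_split, mul_comm (K m)]; omega
    rw [g_succ, e, g_per, Nat.add_mul_div_left _ _ (K_pos m),
      Nat.div_eq_of_lt (by omega : K m - r m + n < K m), Nat.zero_add,
      Nat.mod_eq_of_lt (by omega)]
    cases sg m <;> cases g m (K m - r m + n) <;> simp

lemma vl_le {m m' n : ℕ} (hmm : m ≤ m') (h : n < r m) : vl m' n = vl m n := by
  induction m', hmm using Nat.le_induction with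
  | base => rfl
  | succ k hk ih => rw [vl_succ (lt_of_lt_of_le h (r_mono hk)), ih]

def z : Sq Bool := fun n => vl (2 * n) n

lemma z_val {m n : ℕ} (h : n < r m) : z n = vl m n := by
  rcases le_total m (2 * n) with h1 | h1
  · exact vl_le h1 h
  · exact (vl_le h1 (r_big n)).symm

lemma g_diff {m m' N N' : ℕ} (hmm : m ≤ m') (h : N / K m = N' / K m) :
    xor (g m' N) (g m N) = xor (g m' N') (g m N') := by
  induction m', hmm using Nat.le_induction with
  | base => simp
  | succ k hk ih =>
    have h1 : N / K k = N' / K k := by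
      obtain ⟨c, hc⟩ := K_dvd hk
      rw [hc, ← Nat.div_div_eq_div_mul, ← Nat.div_div_eq_div_mul, h]
    rw [g_succ, g_succ, h1]
    revert ih
    cases g k N <;> cases g m N <;> cases g k N' <;> cases g m N' <;>
      cases decide (N' / K k % kk k = kk k - 1) <;> simp

lemma t_mod {m m' : ℕ} (hmm : m ≤ m') : ∃ c, K m' - r m' = K m - r m + K m * c := by
  induction m', hmm using Nat.le_induction with
  | base => exact ⟨0, by ring⟩
  | succ k hk ih =>
    obtain ⟨c, hc⟩ := ih
    have hr := r_le k
    rw [r_succ]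
    split_ifs with h
    · refine ⟨c, ?_⟩
      rw [← hc, K_split]; omega
    · obtain ⟨e, he⟩ := K_dvd hk
      refine ⟨c + e * (kk k - 1), ?_⟩
      have h1 : K (k + 1) - r k = (K k - r k) + K k * (kk k - 1) := by
        rw [K_split, mul_comm (K k)]; omega
      rw [h1, hc, he]; ring

lemma z_ph : Ph z := by
  intro m
  refine ⟨K m - r m, fun n n' hnn => ?_⟩
  obtain ⟨M, hM⟩ : ∃ M, M = 2 * (n + n' + m) := ⟨_, rfl⟩
  have hMm : m ≤ M := by omega
  have hn : n < r M := by
    have := r_big (n + n' + m)
    rw [← hM] at this; omega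
  have hn' : n' < r M := by
    have := r_big (n + n' + m)
    rw [← hM] at this; omega
  obtain ⟨c, hc⟩ := t_mod hMm
  have key : (K M - r M + n) / K m = (K M - r M + n') / K m := by
    have e : ∀ i, K M - r M + i = i + (K m - r m) + K m * c := fun i => by rw [hc]; ring
    rw [e, e, Nat.add_mul_div_left _ _ (K_pos m), Nat.add_mul_div_left _ _ (K_pos m), hnn]
  have h1 := g_diff hMm key
  have e : ∀ i, g m (K M - r M + i) = g m (i + (K m - r m)) := fun i => by
    have : K M - r M + i = i + (K m - r m) + K m * c := by rw [hc]; ring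
    rw [this, g_per]
  rw [e, e] at h1
  have z1 : z n = xor (sg M) (g M (K M - r M + n)) := z_val hn
  have z2 : z n' = xor (sg M) (g M (K M - r M + n')) := z_val hn'
  rw [z1, z2]
  revert h1
  cases sg M <;> cases g M (K M - r M + n) <;> cases g M (K M - r M + n') <;>
    cases g m (n + (K m - r m)) <;> cases g m (n' + (K m - r m)) <;> simp

/-! ### Frequencies -/

/-- the number of ones in the block `B_m` -/
def o (m : ℕ) : ℕ := ((Finset.range (K m)).filter fun i => g m i = true).card

lemma cnt_blocks (m q : ℕ) (hq : q ≤ kk m - 1) :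
    ((Finset.range (K m * q)).filter fun i => g (m + 1) i = true).card = q * o m := by
  induction q with
  | zero => simp
  | succ q ih =>
    have ih' := ih (by omega)
    have e : Finset.range (K m * (q + 1)) = Finset.range (K m * q) ∪
        (Finset.range (K m)).image (fun i => i + K m * q) := by
      ext i
      simp only [Finset.mem_union, Finset.mem_range, Finset.mem_image]
      constructor
      · intro hi
        rcases lt_or_ge i (K m * q) with h | h
        · exact Or.inl h
        · right
          refine ⟨i - K m * q, ?_, by omega⟩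
          have : K m * (q + 1) = K m * q + K m := by ring
          omega
      · rintro (h | ⟨a, ha, rfl⟩)
        · have : K m * (q + 1) = K m * q + K m := by ring
          omega
        · have : K m * (q + 1) = K m * q + K m := by ring
          omega
    rw [e, Finset.filter_union, Finset.card_union_of_disjoint, ih', Finset.filter_image,
      Finset.card_image_of_injective _ (add_left_injective _)]
    · have h1 : ((Finset.range (K m)).filter fun i => g (m + 1) (i + K m * q) = true).card = o m := by
        unfold o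
        congr 1
        refine Finset.filter_congr fun i hi => ?_
        have hi' := Finset.mem_range.1 hi
        rw [g_succ, g_per, Nat.add_mul_div_left _ _ (K_pos m), Nat.div_eq_of_lt hi', Nat.zero_add,
          Nat.mod_eq_of_lt (by omega)]
        have : ¬ (q = kk m - 1) := by omega
        simp [this]
      rw [h1]; ring
    · rw [Finset.disjoint_left]
      intro i hi hi2
      have h1 := Finset.mem_range.1 (Finset.mem_filter.1 hi).1
      obtain ⟨a, _, ha⟩ := Finset.mem_image.1 (Finset.mem_filter.1 hi2).1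
      omega

lemma o_succ (m : ℕ) : o (m + 1) ≤ (kk m - 1) * o m + K m := by
  have h1 := cnt_blocks m (kk m - 1) (le_refl _)
  have hk := kk_ge m
  have hsub : ((Finset.range (K (m + 1))).filter fun i => g (m + 1) i = true) ⊆
      ((Finset.range (K m * (kk m - 1))).filter fun i => g (m + 1) i = true) ∪
        Finset.Ico (K m * (kk m - 1)) (K (m + 1)) := by
    intro i hi
    obtain ⟨hi1, hi2⟩ := Finset.mem_filter.1 hi
    have hi3 := Finset.mem_range.1 hi1
    rw [Finset.mem_union, Finset.mem_filter, Finset.mem_range, Finset.mem_Ico]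
    rcases lt_or_ge i (K m * (kk m - 1)) with h | h
    · exact Or.inl ⟨h, hi2⟩
    · exact Or.inr ⟨h, hi3⟩
  have h2 := (Finset.card_le_card hsub).trans (Finset.card_union_le _ _)
  rw [h1, Nat.card_Ico, K_split] at h2
  unfold o
  have h3 : K m * (kk m - 1) = (kk m - 1) * K m := mul_comm _ _
  unfold o at h2
  rw [K_split]
  omega

lemma o_bound (m : ℕ) : 8 * 2 ^ m * o m + K m ≤ K m * 2 ^ m := by
  induction m with
  | zero =>
    have : o 0 = 0 := by unfold o; simp [g]
    rw [this]; simp
  | succ m ih =>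
    have h1 := o_succ m
    have hk : kk m = 16 * 2 ^ m := by unfold kk; ring
    obtain ⟨c, hc⟩ : ∃ c, kk m = c + 1 := ⟨kk m - 1, by have := kk_ge m; omega⟩
    rw [hc, Nat.add_sub_cancel] at h1
    have hK : K (m + 1) = K m * (c + 1) := by rw [K_succ, hc]
    rw [hK, pow_succ]
    have h2 : 0 < 2 ^ m := by positivity
    have h3 : 1 ≤ 2 ^ m := h2
    rw [hc] at hk
    generalize 2 ^ m = p at *
    generalize o (m + 1) = o' at *
    generalize o m = o₀ at *
    generalize K m = k at *
    -- 16 p = c + 1
    have h4 : 8 * (p * 2) * o' ≤ 8 * (p * 2) * (c * o₀ + k) := Nat.mul_le_mul_left _ h1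
    have h5 : 8 * (p * 2) * (c * o₀ + k) = 2 * c * (8 * p * o₀) + 16 * p * k := by ring
    have h6 : 2 * c * (8 * p * o₀) + 2 * c * k ≤ 2 * c * (k * p) := by
      have := Nat.mul_le_mul_left (2 * c) ih
      calc 2 * c * (8 * p * o₀) + 2 * c * k = 2 * c * (8 * p * o₀ + k) := by ring
        _ ≤ 2 * c * (k * p) := this
    have h7 : 16 * p * k = c * k + k := by
      have : 16 * p = c + 1 := hk.symm
      rw [this]; ring
    have h8 : k * (c + 1) * (p * 2) = 2 * c * (k * p) + 2 * (k * p) := by ring
    have h9 : k * (c + 1) = c * k + k := by ring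
    have h10 : k ≤ k * p := Nat.le_mul_of_pos_right _ h2
    rw [h8, h9]
    nlinarith

lemma o_le (m : ℕ) : 8 * o m ≤ K m := by
  have h := o_bound m
  have h2 : 0 < 2 ^ m := by positivity
  have h3 : 2 ^ m * (8 * o m) ≤ 2 ^ m * K m := by
    calc 2 ^ m * (8 * o m) = 8 * 2 ^ m * o m := by ring
      _ ≤ K m * 2 ^ m := by omega
      _ = 2 ^ m * K m := mul_comm _ _
  exact Nat.le_of_mul_le_mul_left h3 h2

/-- in `[0, r (m+1))`, `m` even, few symbols differ from `sg m` -/
lemma few (m : ℕ) (hm : m % 2 = 0) :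
    15 * ((Finset.range (r (m + 1))).filter fun n => z n ≠ sg m).card ≤ 2 * r (m + 1) := by
  have hsg : sg (m + 1) = sg m := by rw [sg_succ, if_pos hm]
  have hcard : ((Finset.range (r (m + 1))).filter fun n => z n ≠ sg m).card ≤ o (m + 1) := by
    unfold o
    refine Finset.card_le_card_of_injOn (fun n => K (m + 1) - r (m + 1) + n) ?_ ?_
    · intro n hn
      obtain ⟨hn1, hn2⟩ := Finset.mem_filter.1 hn
      have hn3 := Finset.mem_range.1 hn1
      have hr := r_le (m + 1)
      refine Finset.mem_filter.2 ⟨Finset.mem_range.2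
        (show K (m + 1) - r (m + 1) + n < K (m + 1) by omega), ?_⟩
      rw [z_val hn3, vl, hsg] at hn2
      revert hn2
      cases sg m <;> cases g (m + 1) (K (m + 1) - r (m + 1) + n) <;> simp
    · intro a _ b _ hab
      simpa using hab
  have h1 := o_le (m + 1)
  have h2 : K (m + 1) ≤ r (m + 1) + K m := by
    rw [r_succ, if_pos hm, K_split]
    have := r_pos m
    omega
  have h3 := K_step m
  omega

lemma sg_double (j : ℕ) : sg (2 * (j + 1)) = !(sg (2 * j)) := by
  have e : 2 * (j + 1) = 2 * j + 1 + 1 := by ring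
  rw [e, sg_succ, sg_succ]
  have h1 : (2 * j) % 2 = 0 := by omega
  have h2 : ¬ ((2 * j + 1) % 2 = 0) := by omega
  rw [if_neg h2, if_pos h1]

lemma sg_four (i : ℕ) : sg (2 * (2 * i)) = false ∧ sg (2 * (2 * i + 1)) = true := by
  induction i with
  | zero =>
    refine ⟨rfl, ?_⟩
    rw [sg_double]; rfl
  | succ i ih =>
    have h1 : sg (2 * (2 * (i + 1))) = false := by
      have e : 2 * (i + 1) = 2 * i + 1 + 1 := by ring
      rw [e, sg_double, ih.2]; rfl
    refine ⟨h1, ?_⟩
    rw [sg_double, h1]; rfl

/-! ### The result -/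

/-- There are a dendrite `D` and a continuous `f : D → D` with a DC3 pair but no Li-Yorke
pair. -/
theorem result : ∃ (D : Type) (_ : MetricSpace D) (f : D → D), IsDendrite D ∧ Continuous f ∧
    (∃ x y, IsDC3Pair f x y) ∧ ¬ ∃ x y, IsLYPair f x y := by
  classical
  have hzero : zero ∈ S := Or.inr rfl
  have hne : Nonempty X := ⟨⟨zero, hzero⟩⟩
  obtain ⟨D, hDm, F, e, rt, hD, hF, he, hFe, her, hFr, hall⟩ := exists_dendrite (X := X)
    (fun x y => dist_le_one x.1 y.1) T (fun x y => sh_lip x.1 y.1)
  have hFit : ∀ (k : ℕ) (z : X), F^[k] (e z) = e (T^[k] z) := by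
    intro k
    induction k with
    | zero => intro z; rfl
    | succ k ih => intro z; rw [Function.iterate_succ_apply, Function.iterate_succ_apply, hFe, ih]
  have hdist : ∀ (k : ℕ) (z w : X), dist (F^[k] (e z)) (F^[k] (e w)) =
      2 * dist (sh^[k] z.1) (sh^[k] w.1) := by
    intro k z w
    rw [hFit, hFit, he, Subtype.dist_eq, T_iter, T_iter]
  have hcompact : CompactSpace D := hD.1
  have hfar : ∀ (k : ℕ) (z w : X), z.1 k ≠ w.1 k → dist (F^[k] (e z)) (F^[k] (e w)) = 2 := by
    intro k z w hne
    rw [hdist, dist_eq_one]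
    · norm_num
    · intro h
      apply hne
      have e1 := sh_iter z.1 k 0
      have e2 := sh_iter w.1 k 0
      rw [Nat.zero_add] at e1 e2
      exact e1.symm.trans (h.trans e2)
  have hnear : ∀ (k : ℕ) (z w : X), z.1 k = w.1 k → dist (F^[k] (e z)) (F^[k] (e w)) ≤ 1 := by
    intro k z w heq
    rw [hdist]
    have h1 : dist (sh^[k] z.1) (sh^[k] w.1) ≤ (1 / 2) ^ 1 := by
      rw [dist_le_iff]
      intro i hi
      have hi0 : i = 0 := by omega
      subst hi0
      have e1 := sh_iter z.1 k 0
      have e2 := sh_iter w.1 k 0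
      rw [Nat.zero_add] at e1 e2
      exact e1.trans (heq.trans e2.symm)
    linarith
  refine ⟨D, hDm, F, hD, hF, ?_, ?_⟩
  · obtain ⟨a, ha⟩ : ∃ a : X, a.1 = z := ⟨⟨z, Or.inl z_ph⟩, rfl⟩
    obtain ⟨b, hb⟩ : ∃ b : X, b.1 = zero := ⟨⟨zero, hzero⟩, rfl⟩
    obtain ⟨n₀, -, -, hn₀⟩ := has_one z_ph 0
    have hfar0 := hfar n₀ a b (by rw [ha, hb, hn₀]; exact Bool.noConfusion)
    have hdiam : 2 ≤ Metric.diam (univ : Set D) := by
      rw [← hfar0]
      exact Metric.dist_le_diam_of_mem isCompact_univ.isBounded trivial trivial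
    refine ⟨e a, e b, fun h => ?_, 1, 2, zero_le_one, by norm_num, hdiam, fun δ h1 h2 => ?_⟩
    · rw [h, dist_self] at hfar0
      exact absurd hfar0 (by norm_num)
    · have hcnt : ∀ n, cnt F (e a) (e b) δ n =
          ((Finset.range (n + 1)).filter fun k => z k = false).card := by
        intro n
        unfold cnt
        congr 1
        refine Finset.filter_congr fun k _ => ?_
        constructor
        · intro hk
          by_contra hz
          have := hfar k a b (by rw [ha, hb]; exact hz)
          linarith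
        · intro hk
          have := hnear k a b (by rw [ha, hb]; exact hk)
          linarith
      have hlow : Phi F (e a) (e b) δ ≤ 1 / 3 := by
        refine liminf_le_of_frequently_le (frequently_atTop.2 fun N => ?_) (bdd_below _ _ _ _)
        obtain ⟨m, hm⟩ : ∃ m, m = 2 * (2 * N + 1) := ⟨_, rfl⟩
        have hsg : sg m = true := by rw [hm]; exact (sg_four N).2
        have hf := few m (by omega)
        rw [hsg] at hf
        have hr : N + 16 ≤ r (m + 1) := by
          have h3 := r_big (2 * N + 1)
          rw [← hm] at h3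
          rw [r_succ, if_pos (by omega)]
          have hk := kk_ge m
          have h4 : 15 * 1 ≤ (kk m - 1) * K m := Nat.mul_le_mul (by omega) (K_pos m)
          omega
        refine ⟨r (m + 1) - 1, by omega, ?_⟩
        rw [hcnt, Nat.sub_add_cancel (by omega)]
        have h5 : ((Finset.range (r (m + 1))).filter fun k => z k = false) =
            ((Finset.range (r (m + 1))).filter fun n => z n ≠ true) := by
          refine Finset.filter_congr fun k _ => ?_
          cases z k <;> simp
        rw [h5]
        have h6 : (15 : ℝ) * (((Finset.range (r (m + 1))).filter fun n => z n ≠ true).card : ℝ) ≤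
            2 * r (m + 1) := by exact_mod_cast hf
        have h7 : ((r (m + 1) - 1 : ℕ) : ℝ) = r (m + 1) - 1 := by
          rw [Nat.cast_sub (by omega)]; push_cast; ring
        have h8 : (16 : ℝ) ≤ r (m + 1) := by
          have : 16 ≤ r (m + 1) := by omega
          exact_mod_cast this
        rw [h7, div_le_iff₀ (by linarith)]
        linarith
      have hup : 1 / 2 ≤ PhiStar F (e a) (e b) δ := by
        refine le_limsup_of_frequently_le (frequently_atTop.2 fun N => ?_) (bdd_above _ _ _ _)
        obtain ⟨m, hm⟩ : ∃ m, m = 2 * (2 * N) := ⟨_, rfl⟩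
        have hsg : sg m = false := by rw [hm]; exact (sg_four N).1
        have hf := few m (by omega)
        rw [hsg] at hf
        have hr : N + 16 ≤ r (m + 1) := by
          have h3 := r_big (2 * N)
          rw [← hm] at h3
          rw [r_succ, if_pos (by omega)]
          have hk := kk_ge m
          have h4 : 15 * 1 ≤ (kk m - 1) * K m := Nat.mul_le_mul (by omega) (K_pos m)
          omega
        refine ⟨r (m + 1) - 1, by omega, ?_⟩
        rw [hcnt, Nat.sub_add_cancel (by omega)]
        have h5 := Finset.card_filter_add_card_filter_not (s := Finset.range (r (m + 1)))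
          (fun k => z k = false)
        rw [Finset.card_range] at h5
        have h6 : (15 : ℝ) * (((Finset.range (r (m + 1))).filter fun n => z n ≠ false).card : ℝ) ≤
            2 * r (m + 1) := by exact_mod_cast hf
        have h5' : (((Finset.range (r (m + 1))).filter fun k => z k = false).card : ℝ) +
            (((Finset.range (r (m + 1))).filter fun n => z n ≠ false).card : ℝ) = r (m + 1) := by
          exact_mod_cast h5
        have h7 : ((r (m + 1) - 1 : ℕ) : ℝ) = r (m + 1) - 1 := by
          rw [Nat.cast_sub (by omega)]; push_cast; ring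
        have h8 : (16 : ℝ) ≤ r (m + 1) := by
          have : 16 ≤ r (m + 1) := by omega
          exact_mod_cast this
        rw [h7, le_div_iff₀ (by linarith)]
        linarith
      linarith
  · -- no Li-Yorke pairs
    -- eventually equal
    have heq : ∀ x y : D, (∃ N, ∀ k ≥ N, F^[k] x = F^[k] y) → ¬ IsLYPair F x y := by
      rintro x y ⟨N, hN⟩
      refine not_ly_asym F x y (tendsto_const_nhds.congr' ?_)
      filter_upwards [eventually_ge_atTop N] with k hk
      rw [hN k hk, dist_self]
    -- windows of difference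
    have hwin : ∀ (a b : X) (L : ℕ), (∀ i, ∃ n, i ≤ n ∧ n < i + L ∧ a.1 n ≠ b.1 n) →
        ¬ IsLYPair F (e a) (e b) := by
      intro a b L hL
      refine not_ly_far F _ _ (c := (1 / 2) ^ L) (by positivity) 0 fun k _ => ?_
      rw [hdist]
      by_contra hcon
      push Not at hcon
      have h1 : dist (sh^[k] a.1) (sh^[k] b.1) < (1 / 2) ^ L := by
        have : (0 : ℝ) ≤ dist (sh^[k] a.1) (sh^[k] b.1) := dist_nonneg
        linarith
      obtain ⟨n, h2, h3, h4⟩ := hL k
      apply h4
      have h5 := apply_eq h1 (show n - k ≤ L by omega)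
      have e1 := sh_iter a.1 k (n - k)
      have e2 := sh_iter b.1 k (n - k)
      rw [show n - k + k = n by omega] at e1 e2
      exact e1.symm.trans (h5.trans e2)
    have hXX : ∀ a b : X, ¬ IsLYPair F (e a) (e b) := by
      intro a b
      rcases a.2 with ha | ha
      · rcases b.2 with hb | hb
        · rcases trichotomy ha hb with ⟨L, hL⟩ | ⟨N, hN⟩ | ⟨N, hN⟩
          · exact hwin a b L hL
          · refine heq _ _ ⟨N, fun k hk => ?_⟩
            rw [hFit, hFit]
            congr 1
            refine Subtype.ext ?_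
            rw [T_iter, T_iter]
            funext i
            exact (sh_iter a.1 k i).trans ((hN (i + k) (by omega)).trans (sh_iter b.1 k i).symm)
          · exact not_ly_far F _ _ (c := 2) (by norm_num) N fun k hk => (hfar k a b (hN k hk)).ge
        · refine hwin a b 32 fun i => ?_
          obtain ⟨n, h1, h2, h3⟩ := has_one ha i
          refine ⟨n, h1, h2, ?_⟩
          rw [h3, show b.1 = zero from hb]
          exact Bool.noConfusion
      · rcases b.2 with hb | hb
        · refine hwin a b 32 fun i => ?_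
          obtain ⟨n, h1, h2, h3⟩ := has_one hb i
          refine ⟨n, h1, h2, ?_⟩
          rw [h3, show a.1 = zero from ha]
          exact Bool.noConfusion
        · refine heq _ _ ⟨0, fun k _ => ?_⟩
          have : a = b := Subtype.ext ((show a.1 = zero from ha).trans
            (show b.1 = zero from hb).symm)
          rw [this]
    rintro ⟨p, q, hpq⟩
    rcases hall p with ⟨a, rfl⟩ | ⟨N, hN⟩
    · rcases hall q with ⟨b, rfl⟩ | ⟨M, hM⟩
      · exact hXX a b hpq
      · refine not_ly_far F (e a) q one_pos M (fun k hk => ?_) hpq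
        rw [hFit, hM k hk, her]
    · rcases hall q with ⟨b, rfl⟩ | ⟨M, hM⟩
      · refine not_ly_far F (e b) p one_pos N (fun k hk => ?_) (ly_symm hpq)
        rw [hFit, hN k hk, her]
      · exact heq p q ⟨max N M, fun k hk => by
          rw [hN k (le_trans (le_max_left _ _) hk), hM k (le_trans (le_max_right _ _) hk)]⟩ hpq

end Pool.Agent.Results.MP_5bdc9f_an.DC3NoLY
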